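import Mathlib

set_option autoImplicit false

namespace Pool.Q21.FB

open scoped Classical in
/-- the sum of a class function over a union of noncentral classes -/
theorem class_sum {G : Type*} [Group G] [Fintype G] (p a : ℕ) (S : Finset G) (f : G → ℕ)
    (hP : ∀ g h, IsConj g h → g ∈ S → h ∈ S) (hf : ∀ g h, IsConj g h → f g = f h)
    (hdiv : ∀ g ∈ S, p ^ a ∣ (Subgroup.centralizer {g}).index * f g) :
    p ^ a ∣ ∑ s ∈ S, f s := by
  rw [← Finset.sum_fiberwise S (fun s => ConjClasses.mk s) f]
  refine Finset.dvd_sum (fun C _ => ?_)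
  by_cases hne : (S.filter (fun s : G => ConjClasses.mk s = C)).Nonempty
  · obtain ⟨g, hg⟩ := hne
    rw [Finset.mem_filter] at hg
    obtain ⟨hPg, hgC⟩ := hg
    have h1 : S.filter (fun s : G => ConjClasses.mk s = C) =
        Finset.univ.filter (fun s : G => ConjClasses.mk s = ConjClasses.mk g) := by
      ext s
      simp only [Finset.mem_filter, Finset.mem_univ, true_and]
      constructor
      · rintro ⟨_, h⟩; rw [h, hgC]
      · intro h
        exact ⟨hP g s (ConjClasses.mk_eq_mk_iff_isConj.1 h.symm) hPg, by rw [h, hgC]⟩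
    rw [h1]
    have h2 : ∑ s ∈ Finset.univ.filter (fun s : G => ConjClasses.mk s = ConjClasses.mk g), f s =
        (Finset.univ.filter (fun s : G => ConjClasses.mk s = ConjClasses.mk g)).card * f g := by
      rw [Finset.sum_const_nat]
      intro s hs
      rw [Finset.mem_filter] at hs
      exact (hf g s (ConjClasses.mk_eq_mk_iff_isConj.1 hs.2.symm)).symm
    rw [h2]
    have h3 : (Finset.univ.filter (fun s : G => ConjClasses.mk s = ConjClasses.mk g)).card =
        (Subgroup.centralizer {g}).index := by
      have e1 : (Finset.univ.filter (fun s : G => ConjClasses.mk s = ConjClasses.mk g)).card =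
          Nat.card (MulAction.orbit (ConjAct G) g) := by
        rw [Nat.card_eq_fintype_card, ← Set.toFinset_card]
        congr 1
        ext s
        simp only [Finset.mem_filter, Finset.mem_univ, true_and, Set.mem_toFinset]
        rw [ConjAct.mem_orbit_conjAct, ConjClasses.mk_eq_mk_iff_isConj]
      rw [e1]
      have e2 := MulAction.index_stabilizer (ConjAct G) g
      rw [ConjAct.stabilizer_eq_centralizer] at e2
      rw [← Nat.card_coe_set_eq] at e2
      rw [← e2]
      rfl
    rw [h3]
    exact hdiv g hPg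
  · rw [Finset.not_nonempty_iff_eq_empty] at hne
    rw [hne, Finset.sum_empty]
    exact dvd_zero _

open scoped Classical in
/-- the set of `p`-elements of a finite group has cardinality divisible by the `p`-part of the order -/
theorem frob (p : ℕ) [hp : Fact p.Prime] : ∀ (n : ℕ) (G : Type*) [Group G] [Finite G], Nat.card G = n →
    ∀ k, p ^ k ∣ Nat.card G → p ^ k ∣ Nat.card {g : G // ∃ j, g ^ (p ^ j) = 1} := by
  intro n
  induction n using Nat.strong_induction_on with
  | _ n ih =>
  intro G _ _ hn k hk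
  have : Fintype G := Fintype.ofFinite G
  obtain ⟨a, m, hm, hN⟩ := Nat.exists_eq_pow_mul_and_not_dvd (n := Nat.card G) Nat.card_pos.ne' p hp.out.ne_one
  have hcop : Nat.Coprime m (p ^ a) := by
    apply Nat.Coprime.pow_right
    exact ((Nat.Prime.coprime_iff_not_dvd hp.out).2 hm).symm
  -- reduce to k = a
  have hka : ∀ k, p ^ k ∣ Nat.card G → k ≤ a := by
    intro k hk
    by_contra hc
    push Not at hc
    have h1 : p ^ (a + 1) ∣ p ^ a * m := hN ▸ (pow_dvd_pow p hc).trans hk
    rw [pow_succ] at h1
    exact hm ((Nat.mul_dvd_mul_iff_left (pow_pos hp.out.pos a)).1 h1)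
  suffices h : p ^ a ∣ Nat.card {g : G // ∃ j, g ^ (p ^ j) = 1} from (pow_dvd_pow p (hka k hk)).trans h
  -- the exponent c
  obtain ⟨c, hc1, hc2⟩ := Nat.chineseRemainder hcop 1 0
  have hpow1 : ∀ g : G, g ^ (c * m) = 1 := by
    intro g
    have h1 : Nat.card G ∣ c * m := by
      rw [hN]
      exact Nat.mul_dvd_mul (Nat.modEq_zero_iff_dvd.1 hc2) dvd_rfl
    obtain ⟨r, hr⟩ := h1
    rw [hr, pow_mul, pow_card_eq_one', one_pow]
  have hpc : p ^ a ∣ c := Nat.modEq_zero_iff_dvd.1 hc2
  -- elements of p-power order are killed by p ^ a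
  have hpel : ∀ g : G, (∃ j, g ^ (p ^ j) = 1) → g ^ (p ^ a) = 1 := by
    rintro g ⟨j, hj⟩
    have h1 : orderOf g ∣ p ^ j := orderOf_dvd_of_pow_eq_one hj
    have h2 : orderOf g ∣ p ^ a * m := hN ▸ orderOf_dvd_natCard g
    have h3 : Nat.Coprime (orderOf g) m :=
      Nat.Coprime.coprime_dvd_left h1 (Nat.Coprime.pow_left j ((Nat.Prime.coprime_iff_not_dvd hp.out).2 hm))
    exact orderOf_dvd_iff_pow_eq_one.1 (h3.dvd_of_dvd_mul_right h2)
  have hB : ∀ g : G, ((g ^ c)⁻¹ * g) ^ (p ^ a) = 1 := by
    intro g
    have hg : Commute (g ^ c)⁻¹ g := (Commute.pow_self g c).inv_left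
    rw [hg.mul_pow, inv_pow, inv_mul_eq_one, ← pow_mul, mul_comm]
    -- g ^ (p^a * c) = g ^ (p^a)
    rw [eq_comm, pow_eq_pow_iff_modEq]
    have h5 : p ^ a * 1 ≡ p ^ a * c [MOD (p ^ a * m)] := (hc1.symm).mul_left' (p ^ a)
    rw [mul_one] at h5
    apply h5.of_dvd
    rw [← hN]
    exact orderOf_dvd_natCard _
  let f : G → ℕ := fun s => Nat.card {u : Subgroup.centralizer {s} // ∃ j, u ^ (p ^ j) = 1}
  -- the decomposition
  have hsum : ∑ s ∈ Finset.univ.filter (fun s : G => s ^ m = 1), f s = Nat.card G := by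
    rw [Nat.card_eq_fintype_card, ← Finset.card_univ]
    rw [Finset.card_eq_sum_card_fiberwise (f := fun g : G => g ^ c)
      (t := Finset.univ.filter (fun s : G => s ^ m = 1))]
    · refine Finset.sum_congr rfl (fun s hs => ?_)
      rw [Finset.mem_filter] at hs
      show f s = _
      have h1 : (Finset.univ.filter (fun g : G => g ^ c = s)).card = Nat.card {g : G // g ^ c = s} := by
        rw [Nat.card_eq_fintype_card, Fintype.card_subtype]
      rw [h1]
      have hsc : s ^ c = s := by
        have h2 : c ≡ 1 [MOD orderOf s] := hc1.of_dvd (orderOf_dvd_of_pow_eq_one hs.2)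
        have h3 := pow_eq_pow_iff_modEq.2 h2
        rw [h3, pow_one]
      have h6 : ∀ u : {u : Subgroup.centralizer {s} // ∃ j, u ^ (p ^ j) = 1}, (s * (u.1 : G)) ^ c = s := by
        intro u
        have hcomm : Commute s (u.1 : G) := (Subgroup.mem_centralizer_iff.1 u.1.2) s rfl
        rw [hcomm.mul_pow, hsc]
        obtain ⟨j, hj⟩ := u.2
        have h4 : (u.1 : G) ^ (p ^ a) = 1 := hpel _ ⟨j, by
          have := congrArg (Subgroup.subtype _) hj
          simpa using this⟩
        obtain ⟨r, hr⟩ := hpc
        rw [hr, pow_mul, h4, one_pow, mul_one]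
      have h7 : ∀ g : {g : G // g ^ c = s}, s⁻¹ * g.1 ∈ Subgroup.centralizer {s} := by
        intro g
        rw [Subgroup.mem_centralizer_iff]
        intro t ht
        rw [Set.mem_singleton_iff] at ht
        subst ht
        have hg : Commute t g.1 := by
          have := Commute.pow_self g.1 c
          rwa [g.2] at this
        exact ((Commute.refl t).inv_right.mul_right hg)
      have h8 : ∀ g : {g : G // g ^ c = s}, ∃ j, (⟨s⁻¹ * g.1, h7 g⟩ : Subgroup.centralizer {s}) ^ (p ^ j) = 1 := by
        intro g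
        refine ⟨a, ?_⟩
        apply Subtype.ext
        have := hB g.1
        rw [g.2] at this
        exact this
      refine Nat.card_congr
        { toFun := fun u => ⟨s * (u.1 : G), h6 u⟩
          invFun := fun g => ⟨⟨s⁻¹ * g.1, h7 g⟩, h8 g⟩
          left_inv := ?_
          right_inv := ?_ }
      · intro u
        apply Subtype.ext
        apply Subtype.ext
        simp
      · intro g
        apply Subtype.ext
        simp
    · intro g _
      simp only [Finset.coe_filter, Finset.mem_univ, true_and, Set.mem_ofPred_eq]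
      rw [← pow_mul]
      exact hpow1 g
  -- split into central and noncentral
  rw [← Finset.sum_filter_add_sum_filter_not _ (fun s => s ∈ Subgroup.center G)] at hsum
  have hcen : ∑ s ∈ (Finset.univ.filter (fun s : G => s ^ m = 1)).filter (fun s => s ∈ Subgroup.center G), f s =
      ((Finset.univ.filter (fun s : G => s ^ m = 1)).filter (fun s => s ∈ Subgroup.center G)).card *
        Nat.card {g : G // ∃ j, g ^ (p ^ j) = 1} := by
    rw [Finset.sum_const_nat]
    intro s hs
    rw [Finset.mem_filter] at hs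
    have htop : Subgroup.centralizer {s} = ⊤ := by
      rw [Subgroup.centralizer_eq_top_iff_subset]
      simpa using hs.2
    show Nat.card {u : Subgroup.centralizer {s} // ∃ j, u ^ (p ^ j) = 1} = _
    rw [htop]
    refine Nat.card_congr
      { toFun := fun u => ⟨u.1.1, ?_⟩
        invFun := fun g => ⟨⟨g.1, Subgroup.mem_top _⟩, ?_⟩
        left_inv := fun u => rfl
        right_inv := fun g => rfl }
    · obtain ⟨j, hj⟩ := u.2
      exact ⟨j, congrArg Subtype.val hj⟩
    · obtain ⟨j, hj⟩ := g.2
      exact ⟨j, Subtype.ext hj⟩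
  have hnc : p ^ a ∣ ∑ s ∈ (Finset.univ.filter (fun s : G => s ^ m = 1)).filter
      (fun s => ¬ s ∈ Subgroup.center G), f s := by
    apply class_sum
    · intro g h hgh hg
      rw [Finset.mem_filter, Finset.mem_filter] at hg ⊢
      obtain ⟨x, rfl⟩ := isConj_iff.1 hgh
      refine ⟨⟨Finset.mem_univ _, ?_⟩, ?_⟩
      · rw [conj_pow, hg.1.2, mul_one, mul_inv_cancel]
      · intro hc
        apply hg.2
        have h3 := (inferInstance : (Subgroup.center G).Normal).conj_mem _ hc x⁻¹
        simpa [mul_assoc] using h3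
    · intro g h hgh
      obtain ⟨x, rfl⟩ := isConj_iff.1 hgh
      have h5 : ∀ (y : G) (g : G) (u : {u : Subgroup.centralizer {g} // ∃ j, u ^ (p ^ j) = 1}),
          y * (u.1 : G) * y⁻¹ ∈ Subgroup.centralizer {y * g * y⁻¹} := by
        intro y g u
        rw [Subgroup.mem_centralizer_iff]
        intro t ht
        rw [Set.mem_singleton_iff] at ht
        subst ht
        have hu : g * (u.1 : G) = (u.1 : G) * g := (Subgroup.mem_centralizer_iff.1 u.1.2) g rfl
        have e1 : y * g * y⁻¹ * (y * (u.1 : G) * y⁻¹) = y * (g * (u.1 : G)) * y⁻¹ := by group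
        have e2 : y * (u.1 : G) * y⁻¹ * (y * g * y⁻¹) = y * ((u.1 : G) * g) * y⁻¹ := by group
        rw [e1, e2, hu]
      have h6 : ∀ (y : G) (g : G) (u : {u : Subgroup.centralizer {g} // ∃ j, u ^ (p ^ j) = 1}),
          ∃ j, (⟨y * (u.1 : G) * y⁻¹, h5 y g u⟩ : Subgroup.centralizer {y * g * y⁻¹}) ^ (p ^ j) = 1 := by
        intro y g u
        obtain ⟨j, hj⟩ := u.2
        refine ⟨j, Subtype.ext ?_⟩
        have h7 := congrArg Subtype.val hj
        change (y * (u.1 : G) * y⁻¹) ^ (p ^ j) = 1
        change (u.1 : G) ^ (p ^ j) = 1 at h7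
        rw [conj_pow, h7, mul_one, mul_inv_cancel]
      have hle : ∀ (y g : G), f g ≤ f (y * g * y⁻¹) := by
        intro y g
        refine Nat.card_le_card_of_injective (fun u => ⟨⟨y * (u.1 : G) * y⁻¹, h5 y g u⟩, h6 y g u⟩) ?_
        intro u u' huu
        have h8 := congrArg (fun z => (z.1 : G)) huu
        simp only [mul_left_inj, mul_right_inj] at h8
        exact Subtype.ext (Subtype.ext h8)
      refine le_antisymm (hle x g) ?_
      have h9 := hle x⁻¹ (x * g * x⁻¹)
      have h10 : x⁻¹ * (x * g * x⁻¹) * x⁻¹⁻¹ = g := by group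
      rwa [h10] at h9
    · intro g hg
      rw [Finset.mem_filter, Finset.mem_filter] at hg
      -- the induction hypothesis
      have hlt : Nat.card (Subgroup.centralizer {g}) < n := by
        rw [← hn]
        have hne : Subgroup.centralizer {g} ≠ ⊤ := by
          intro h
          apply hg.2
          rw [Subgroup.centralizer_eq_top_iff_subset] at h
          simpa using h
        have h1 := Subgroup.card_le_card_group (Subgroup.centralizer {g})
        refine lt_of_le_of_ne h1 (fun h => hne ?_)
        exact Subgroup.eq_top_of_card_eq _ h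
      obtain ⟨b, m', hm', hb⟩ := Nat.exists_eq_pow_mul_and_not_dvd
        (n := Nat.card (Subgroup.centralizer {g})) Nat.card_pos.ne' p hp.out.ne_one
      have h1 := ih _ hlt (Subgroup.centralizer {g}) rfl b ⟨m', hb⟩
      have h2 : p ^ a ∣ p ^ b * (Subgroup.centralizer {g}).index := by
        have h3 : p ^ a * m = (p ^ b * (Subgroup.centralizer {g}).index) * m' := by
          rw [← hN, ← Subgroup.card_mul_index (Subgroup.centralizer {g}), hb]; ring
        have h4 : Nat.Coprime (p ^ a) m' :=
          Nat.Coprime.pow_left a ((Nat.Prime.coprime_iff_not_dvd hp.out).2 hm')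
        exact h4.dvd_of_dvd_mul_right ⟨m, h3.symm⟩
      rw [mul_comm]
      obtain ⟨r, hr⟩ := h1
      have h3 : f g = p ^ b * r := hr
      rw [h3, mul_assoc, mul_comm r, ← mul_assoc]
      exact Dvd.dvd.mul_right h2 r
  rw [hcen] at hsum
  have h1 : p ^ a ∣ ((Finset.univ.filter (fun s : G => s ^ m = 1)).filter (fun s => s ∈ Subgroup.center G)).card *
        Nat.card {g : G // ∃ j, g ^ (p ^ j) = 1} := by
    have : p ^ a ∣ Nat.card G := ⟨m, hN⟩
    rw [← hsum] at this
    exact (Nat.dvd_add_left hnc).1 this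
  refine Nat.Coprime.dvd_of_dvd_mul_left ?_ h1
  apply Nat.Coprime.pow_left
  rw [Nat.Prime.coprime_iff_not_dvd hp.out]
  intro hdvd
  -- the central elements killed by m form a subgroup of order prime to p
  let Z : Subgroup G :=
    { carrier := {s | s ^ m = 1 ∧ s ∈ Subgroup.center G}
      mul_mem' := fun {x y} hx hy => ⟨by
        have hc : Commute x y := (Subgroup.mem_center_iff.1 hy.2 x)
        rw [hc.mul_pow, hx.1, hy.1, one_mul], mul_mem hx.2 hy.2⟩
      one_mem' := ⟨one_pow _, one_mem _⟩
      inv_mem' := fun {x} hx => ⟨by rw [inv_pow, hx.1, inv_one], inv_mem hx.2⟩ }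
  have hZ : ((Finset.univ.filter (fun s : G => s ^ m = 1)).filter (fun s => s ∈ Subgroup.center G)).card =
      Nat.card Z := by
    rw [Nat.card_eq_fintype_card, Finset.filter_filter]
    rw [← Fintype.card_subtype]
    exact Fintype.card_congr (Equiv.refl _)
  rw [hZ] at hdvd
  obtain ⟨z, hz⟩ := exists_prime_orderOf_dvd_card' p hdvd
  apply hm
  rw [← hz]
  apply orderOf_dvd_of_pow_eq_one
  exact Subtype.ext z.2.1

end Pool.Q21.FB
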